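import Pool.Agent.TH199.MY.SobD

set_option autoImplicit false

open MeasureTheory Set
open scoped ContDiff RealInnerProductSpace

namespace Pool.Agent.Results.MP_ae5e3b_mp.MarchYoungPairs

/-- The space `ℝ^d`. -/
abbrev Space (d : ℕ) := EuclideanSpace ℝ (Fin d)

variable {d : ℕ}

/-- The `i`-th partial derivative of a test function. -/
noncomputable def partialDeriv (i : Fin d) (η : Space d → ℝ) (x : Space d) : ℝ :=
  fderiv ℝ η x (EuclideanSpace.single i 1)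

/-- `f` is in the Sobolev space `H¹(ℝ^d)` and `g` is its weak gradient. -/
structure IsSobolev (f : Space d → ℂ) (g : Fin d → Space d → ℂ) : Prop where
  memLp : MemLp f 2
  memLp_grad : ∀ i, MemLp (g i) 2
  weak : ∀ η : Space d → ℝ, ContDiff ℝ ∞ η → HasCompactSupport η → ∀ i,
    ∫ x, f x * (partialDeriv i η x : ℂ) = -∫ x, g i x * (η x : ℂ)

/-- `φ₁, ..., φ_N` in `H¹(ℝ^d)`, with weak gradients `g`, are orthonormal in `L²(ℝ^d)` and
`∑ |φ_n|² = ρ`. -/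
structure IsFamily (ρ : Space d → ℝ) {N : ℕ} (φ : Fin N → Space d → ℂ)
    (g : Fin N → Fin d → Space d → ℂ) : Prop where
  sobolev : ∀ n, IsSobolev (φ n) (g n)
  orthonormal : ∀ n m, ∫ x, star (φ n x) * φ m x = if n = m then (1 : ℂ) else 0
  density : ∀ x, ∑ n, ‖φ n x‖ ^ 2 = ρ x

/-- The kinetic energy `∑ ∫ |∇φ_n|²`. -/
noncomputable def kinetic {N : ℕ} (g : Fin N → Fin d → Space d → ℂ) : ℝ :=
  ∑ n, ∑ i, ∫ x, ‖g n i x‖ ^ 2

/-- `f` is admissible: `f ≥ 0`, `∫ f = 1`, and `√f` is in `H¹(ℝ^d)` with weak gradient `G`. -/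
structure IsAdmissible (f : Space d → ℝ) (G : Fin d → Space d → ℂ) : Prop where
  nonneg : ∀ x, 0 ≤ f x
  integrable : Integrable f
  integral : ∫ x, f x = 1
  sobolev : IsSobolev (fun x => ((Real.sqrt (f x) : ℝ) : ℂ)) G

/-- The semiclassical constant `K_cl = (4π²d/(d+2)) |B₁|^{-2/d}`. -/
noncomputable def Kcl (d : ℕ) : ℝ :=
  4 * Real.pi ^ 2 * d / (d + 2) *
    (volume.real (Metric.ball (0 : Space d) 1)) ^ (-(2 / (d:ℝ)))

lemma norm_split (G : ℂ) (b s : ℝ) :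
    ‖G * (b : ℂ) + (s : ℂ)‖ ^ 2 = ‖G‖ ^ 2 * b ^ 2 + 2 * G.re * (b * s) + s ^ 2 := by
  rw [← Complex.normSq_eq_norm_sq, ← Complex.normSq_eq_norm_sq, Complex.normSq_apply,
    Complex.normSq_apply]
  simp only [Complex.add_re, Complex.mul_re, Complex.ofReal_re, Complex.ofReal_im, mul_zero,
    sub_zero, Complex.add_im, Complex.mul_im, add_zero, zero_add]
  ring

open TH199.MY TH199.MY.D in
/-- Families built from functions of one linear functional. -/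
lemma family {ρ : Space d → ℝ} {G : Fin d → Space d → ℂ} (h0 : ∀ x, 0 ≤ ρ x) (hi : Integrable ρ)
    (hG : IsSobolev (fun x => ((Real.sqrt (ρ x) : ℝ) : ℂ)) G) {N : ℕ} (c : Space d)
    (h h' : Fin N → ℝ → ℝ) (hs : ∀ n, ContDiff ℝ ∞ (h n))
    (hd : ∀ n t, HasDerivAt (h n) (h' n t) t) {K : ℝ} (hb : ∀ n t, |h n t| ≤ K)
    (hb' : ∀ n t, |h' n t| ≤ K) (s1 : ∀ t, ∑ n, h n t ^ 2 = 1)
    (s0 : ∀ t, ∑ n, h n t * h' n t = 0)
    (ho : ∀ n m, ∫ x, ρ x * (h n ⟪c, x⟫ * h m ⟪c, x⟫) = if n = m then (1 : ℝ) else 0) :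
    ∃ (φ : Fin N → Space d → ℂ) (g : Fin N → Fin d → Space d → ℂ), IsFamily ρ φ g ∧
      kinetic g = (∑ i, ∫ x, ‖G i x‖ ^ 2) +
        ‖c‖ ^ 2 * ∫ x, ρ x * ∑ n, h' n ⟪c, x⟫ ^ 2 := by
  have hpc : ∀ n, Continuous fun x => h n ⟪c, x⟫ := fun n => (hs n).continuous.comp (by fun_prop)
  have hpd : ∀ n i x, pd i (fun x => h n ⟪c, x⟫) x = h' n ⟪c, x⟫ * c i := fun n i x =>
    comp_pd (hd n) c i x
  have hpc' : ∀ n i, Continuous fun x => h' n ⟪c, x⟫ * c i := fun n i => by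
    have := pd_cont (comp_contDiff (hs n) c) i
    have e : pd i (fun x => h n ⟪c, x⟫) = fun x => h' n ⟪c, x⟫ * c i := funext fun x => hpd n i x
    rwa [e] at this
  set φ₀ : Fin N → Space d → ℂ := fun n x => ((Real.sqrt (ρ x) : ℝ) : ℂ) * ((h n ⟪c, x⟫ : ℝ) : ℂ)
    with hφ₀
  set g₀ : Fin N → Fin d → Space d → ℂ := fun n i x => G i x * ((h n ⟪c, x⟫ : ℝ) : ℂ) +
    ((Real.sqrt (ρ x) : ℝ) : ℂ) * ((h' n ⟪c, x⟫ * c i : ℝ) : ℂ) with hg₀
  have m1 : ∀ n, MemLp (φ₀ n) 2 := fun n => by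
    refine hG.memLp.of_le_mul (c := K) (hG.memLp.1.mul
      (Complex.continuous_ofReal.comp (hpc n)).aestronglyMeasurable)
      (Filter.Eventually.of_forall fun x => ?_)
    rw [norm_mul, mul_comm, Complex.norm_real (h n ⟪c, x⟫), Real.norm_eq_abs]
    exact mul_le_mul_of_nonneg_right (hb _ _) (norm_nonneg _)
  have m2 : ∀ n i, MemLp (fun x => G i x * ((h n ⟪c, x⟫ : ℝ) : ℂ)) 2 := fun n i => by
    refine (hG.memLp_grad i).of_le_mul (c := K) ((hG.memLp_grad i).1.mul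
      (Complex.continuous_ofReal.comp (hpc n)).aestronglyMeasurable)
      (Filter.Eventually.of_forall fun x => ?_)
    rw [norm_mul, mul_comm, Complex.norm_real, Real.norm_eq_abs]
    exact mul_le_mul_of_nonneg_right (hb _ _) (norm_nonneg _)
  have m3 : ∀ n i, MemLp (fun x => ((Real.sqrt (ρ x) : ℝ) : ℂ) *
      ((h' n ⟪c, x⟫ * c i : ℝ) : ℂ)) 2 := fun n i => by
    refine hG.memLp.of_le_mul (c := K * |c i|) (hG.memLp.1.mul
      (Complex.continuous_ofReal.comp (hpc' n i)).aestronglyMeasurable)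
      (Filter.Eventually.of_forall fun x => ?_)
    rw [norm_mul, mul_comm, Complex.norm_real (h' n ⟪c, x⟫ * c i), Real.norm_eq_abs, abs_mul]
    exact mul_le_mul_of_nonneg_right (mul_le_mul_of_nonneg_right (hb' _ _) (abs_nonneg _))
      (norm_nonneg _)
  have m4 : ∀ n i, MemLp (g₀ n i) 2 := fun n i => (m2 n i).add (m3 n i)
  have sob : ∀ n, IsSobolev (φ₀ n) (g₀ n) := fun n => by
    refine ⟨m1 n, m4 n, fun η h1 h2 i => ?_⟩
    have := prod_weak hG.memLp hG.memLp_grad (fun η h1 h2 i => hG.weak η h1 h2 i)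
      (comp_contDiff (hs n) c) h1 h2 i
    simp only [hpd] at this
    exact this
  refine ⟨φ₀, g₀, ⟨sob, fun n m => ?_, fun x => ?_⟩, ?_⟩
  · have e : ∀ x, star (φ₀ n x) * φ₀ m x = ((ρ x * (h n ⟪c, x⟫ * h m ⟪c, x⟫) : ℝ) : ℂ) := by
      intro x
      have hsq : ((Real.sqrt (ρ x) : ℝ) : ℂ) * ((Real.sqrt (ρ x) : ℝ) : ℂ) = ((ρ x : ℝ) : ℂ) := by
        rw [← Complex.ofReal_mul, Real.mul_self_sqrt (h0 x)]
      have hst : ∀ r : ℝ, star (r : ℂ) = r := fun r => Complex.conj_ofReal r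
      simp only [hφ₀]
      rw [star_mul', hst, hst]
      push_cast
      rw [← hsq]
      ring
    simp only [e]
    rw [integral_complex_ofReal, ho n m]
    split_ifs <;> simp
  · have e : ∀ n, ‖φ₀ n x‖ ^ 2 = ρ x * h n ⟪c, x⟫ ^ 2 := by
      intro n
      simp only [hφ₀]
      rw [norm_mul, Complex.norm_real, Complex.norm_real, Real.norm_eq_abs, Real.norm_eq_abs,
        mul_pow, sq_abs, sq_abs, Real.sq_sqrt (h0 x)]
    rw [Finset.sum_congr rfl fun n _ => e n, ← Finset.mul_sum, s1, mul_one]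
  · rw [kinetic, Finset.sum_comm, EuclideanSpace.norm_sq_eq, Finset.sum_mul,
      ← Finset.sum_add_distrib]
    refine Finset.sum_congr rfl fun i _ => ?_
    have hgi : ∀ n, Integrable (fun x => ‖g₀ n i x‖ ^ 2) := fun n =>
      (m4 n i).integrable_norm_pow (by norm_num)
    have hGi : Integrable (fun x => ‖G i x‖ ^ 2) :=
      (hG.memLp_grad i).integrable_norm_pow (by norm_num)
    have hpc3 : Continuous fun x => ∑ n, (h' n ⟪c, x⟫ * c i) ^ 2 :=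
      continuous_finsetSum _ fun n _ => (hpc' n i).pow 2
    have hρi : Integrable (fun x => ρ x * ∑ n, (h' n ⟪c, x⟫ * c i) ^ 2) := by
      refine (hi.mul_const (∑ _n : Fin N, (K * |c i|) ^ 2)).mono'
        (hi.1.mul hpc3.aestronglyMeasurable) (Filter.Eventually.of_forall fun x => ?_)
      have hnn : 0 ≤ ∑ n, (h' n ⟪c, x⟫ * c i) ^ 2 := Finset.sum_nonneg fun _ _ => sq_nonneg _
      rw [Real.norm_eq_abs, abs_of_nonneg (mul_nonneg (h0 x) hnn)]
      refine mul_le_mul_of_nonneg_left (Finset.sum_le_sum fun n _ => ?_) (h0 x)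
      rw [← sq_abs (h' n ⟪c, x⟫ * c i), abs_mul]
      exact pow_le_pow_left₀ (by positivity)
        (mul_le_mul_of_nonneg_right (hb' _ _) (abs_nonneg _)) 2
    rw [← integral_finsetSum _ fun n _ => hgi n]
    have e2 : ∀ x, ∑ n, ‖g₀ n i x‖ ^ 2 =
        ‖G i x‖ ^ 2 + ρ x * ∑ n, (h' n ⟪c, x⟫ * c i) ^ 2 := by
      intro x
      have e3 : ∀ n, ‖g₀ n i x‖ ^ 2 = ‖G i x‖ ^ 2 * h n ⟪c, x⟫ ^ 2 +
          2 * (G i x).re * Real.sqrt (ρ x) * c i * (h n ⟪c, x⟫ * h' n ⟪c, x⟫) +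
          ρ x * (h' n ⟪c, x⟫ * c i) ^ 2 := by
        intro n
        have e4 : g₀ n i x = G i x * ((h n ⟪c, x⟫ : ℝ) : ℂ) +
            ((Real.sqrt (ρ x) * (h' n ⟪c, x⟫ * c i) : ℝ) : ℂ) := by
          simp only [hg₀]; push_cast; ring
        rw [e4, norm_split, mul_pow (Real.sqrt (ρ x)), Real.sq_sqrt (h0 x)]
        ring
      rw [Finset.sum_congr rfl fun n _ => e3 n, Finset.sum_add_distrib, Finset.sum_add_distrib,
        ← Finset.mul_sum, ← Finset.mul_sum, ← Finset.mul_sum, s1, s0]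
      ring
    simp only [e2]
    rw [integral_add hGi hρi]
    congr 1
    rw [← integral_const_mul]
    refine integral_congr_ae (Filter.Eventually.of_forall fun x => ?_)
    simp only [Real.norm_eq_abs, sq_abs]
    rw [Finset.mul_sum, Finset.mul_sum, Finset.mul_sum]
    refine Finset.sum_congr rfl fun n _ => ?_
    ring

open TH199.MY TH199.MY.D in
/-- The case `∫ ρ = 2`. -/
lemma pair (hd : 10 ^ 7 ≤ d) {ρ : Space d → ℝ} {G : Fin d → Space d → ℂ} (h0 : ∀ x, 0 ≤ ρ x)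
    (hi : Integrable ρ) (hρ : ∫ x, ρ x = 2) (hI : Integrable fun x => ρ x ^ (1 + 2 / (d:ℝ)))
    (hG : IsSobolev (fun x => ((Real.sqrt (ρ x) : ℝ) : ℂ)) G) :
    ∃ (φ : Fin 2 → Space d → ℂ) (g : Fin 2 → Fin d → Space d → ℂ), IsFamily ρ φ g ∧
      kinetic g ≤ Kcl d * (∫ x, ρ x ^ (1 + 2 / (d:ℝ))) + ∑ i, ∫ x, ‖G i x‖ ^ 2 := by
  obtain ⟨c, a, w, hw, hA, hB, hW⟩ := geoD hd h0 hi hρ hI
  have hfAc : Continuous fun x : Space d => fA a w ⟪c, x⟫ := by
    have : ∀ x : Space d, fA a w ⟪c, x⟫ = p2 a w ⟪c, x⟫ ^ 2 := fun x => (p_sq hw _).2.1.symm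
    simp only [this]
    exact ((p2_smooth hw).continuous.comp (by fun_prop)).pow 2
  have hAi : Integrable fun x => ρ x * fA a w ⟪c, x⟫ := by
    refine hi.mono' (hi.1.mul hfAc.aestronglyMeasurable) (Filter.Eventually.of_forall fun x => ?_)
    rw [Real.norm_eq_abs, abs_of_nonneg (mul_nonneg (h0 x) (fA_nonneg _ _ _))]
    exact mul_le_of_le_one_right (h0 x) (fA_le _ _ _)
  obtain ⟨φ, g, k1, k2⟩ := family h0 hi hG (N := 2) c ![p1 a w, p2 a w] ![q1 a w, q2 a w]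
    (fun n => by fin_cases n <;> [exact p1_smooth hw; exact p2_smooth hw])
    (fun n t => by fin_cases n <;> [exact p1_deriv hw t; exact p2_deriv hw t])
    (K := max 1 w⁻¹)
    (fun n t => by
      obtain ⟨j1, j2⟩ := p_le hw t (a := a)
      fin_cases n
      · exact j1.trans (le_max_left _ _)
      · exact j2.trans (le_max_left _ _))
    (fun n t => by
      obtain ⟨j1, j2⟩ := q_le hw t (a := a)
      fin_cases n
      · exact j1.trans (le_max_right _ _)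
      · exact j2.trans (le_max_right _ _))
    (fun t => by
      obtain ⟨j1, j2, -⟩ := p_sq hw t (a := a)
      rw [Fin.sum_univ_two]
      change p1 a w t ^ 2 + p2 a w t ^ 2 = 1
      rw [j1, j2]; ring)
    (fun t => by
      rw [Fin.sum_univ_two]
      exact pq_zero hw t)
    (fun n m => by
      have v1 : ∫ x, ρ x * (p1 a w ⟪c, x⟫ * p1 a w ⟪c, x⟫) = 1 := by
        have e : ∀ x, ρ x * (p1 a w ⟪c, x⟫ * p1 a w ⟪c, x⟫) = ρ x - ρ x * fA a w ⟪c, x⟫ := by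
          intro x
          have j1 := (p_sq hw ⟪c, x⟫ (a := a)).1
          linear_combination (ρ x) * j1
        simp only [e]
        rw [integral_sub hi hAi, hρ, hA]
        norm_num
      have v2 : ∫ x, ρ x * (p2 a w ⟪c, x⟫ * p2 a w ⟪c, x⟫) = 1 := by
        rw [← hA]
        refine integral_congr_ae (Filter.Eventually.of_forall fun x => ?_)
        have j1 := (p_sq hw ⟪c, x⟫ (a := a)).2.1
        simp only
        linear_combination (ρ x) * j1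
      have v3 : ∫ x, ρ x * (p1 a w ⟪c, x⟫ * p2 a w ⟪c, x⟫) = 0 := by
        rw [← hB]
        refine integral_congr_ae (Filter.Eventually.of_forall fun x => ?_)
        have j1 := (p_sq hw ⟪c, x⟫ (a := a)).2.2
        simp only
        linear_combination (ρ x) * j1
      have v4 : ∫ x, ρ x * (p2 a w ⟪c, x⟫ * p1 a w ⟪c, x⟫) = 0 := by
        rw [← v3]
        exact integral_congr_ae (Filter.Eventually.of_forall fun x => by simp only; ring)
      fin_cases n <;> fin_cases m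
      · simpa using v1
      · simpa using v3
      · simpa using v4
      · simpa using v2)
  refine ⟨φ, g, k1, ?_⟩
  rw [k2]
  have hq : ∀ x, ρ x * ∑ n, (![q1 a w, q2 a w] : Fin 2 → ℝ → ℝ) n ⟪c, x⟫ ^ 2 ≤
      (w ^ 2)⁻¹ * (ρ x * fA a w ⟪c, x⟫) := by
    intro x
    have j1 := mul_le_mul_of_nonneg_left (q_sq hw ⟪c, x⟫ (a := a)) (h0 x)
    rw [Fin.sum_univ_two]
    change ρ x * (q1 a w ⟪c, x⟫ ^ 2 + q2 a w ⟪c, x⟫ ^ 2) ≤ (w ^ 2)⁻¹ * (ρ x * fA a w ⟪c, x⟫)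
    linarith
  have hE : ∫ x, ρ x * ∑ n, (![q1 a w, q2 a w] : Fin 2 → ℝ → ℝ) n ⟪c, x⟫ ^ 2 ≤ (w ^ 2)⁻¹ := by
    have l1 := integral_mono_of_nonneg (μ := volume)
      (Filter.Eventually.of_forall fun x => mul_nonneg (h0 x)
        (Finset.sum_nonneg fun n _ => sq_nonneg
          ((![q1 a w, q2 a w] : Fin 2 → ℝ → ℝ) n ⟪c, x⟫)))
      (hAi.const_mul (w ^ 2)⁻¹) (Filter.Eventually.of_forall hq)
    rw [integral_const_mul, hA, mul_one] at l1
    exact l1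
  have h3 := mul_le_mul_of_nonneg_left hE (sq_nonneg ‖c‖)
  have h4 : ‖c‖ ^ 2 * (w ^ 2)⁻¹ ≤ Kcl d * ∫ x, ρ x ^ (1 + 2 / (d:ℝ)) := hW
  linarith

/-- **The March-Young bound for two fermions in high dimension.** Let `d ≥ 10⁷`. For every
admissible `f` there are `φ₁, φ₂` in `H¹(ℝ^d)`, orthonormal in `L²(ℝ^d)`, with
`|φ₁|² + |φ₂|² = 2f` and
`2^{-1-2/d} (∫ |∇φ₁|² + ∫ |∇φ₂|²) ≤ K_cl ∫ f^{1+2/d} + 2^{-2/d} ∫ |∇√f|²`. -/
theorem result (d : ℕ) (hd : 10 ^ 7 ≤ d) (f : Space d → ℝ) (G : Fin d → Space d → ℂ)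
    (hf : IsAdmissible f G) (hfi : Integrable fun x => f x ^ (1 + 2 / (d:ℝ))) :
    ∃ (φ : Fin 2 → Space d → ℂ) (g : Fin 2 → Fin d → Space d → ℂ),
      IsFamily (fun x => 2 * f x) φ g ∧
      (2:ℝ) ^ (-1 - 2 / (d:ℝ)) * kinetic g ≤
        Kcl d * (∫ x, f x ^ (1 + 2 / (d:ℝ))) +
          (2:ℝ) ^ (-(2 / (d:ℝ))) * ∑ i, ∫ x, ‖G i x‖ ^ 2 := by
  set s : ℂ := ((Real.sqrt 2 : ℝ) : ℂ) with hs
  have hpow : ∀ x, (2 * f x) ^ (1 + 2 / (d:ℝ)) =
      (2:ℝ) ^ (1 + 2 / (d:ℝ)) * f x ^ (1 + 2 / (d:ℝ)) := fun x =>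
    Real.mul_rpow (by norm_num) (hf.nonneg x)
  have hsob : IsSobolev (fun x => ((Real.sqrt (2 * f x) : ℝ) : ℂ)) (fun i x => s * G i x) := by
    have e : (fun x => ((Real.sqrt (2 * f x) : ℝ) : ℂ)) =
        fun x => s * ((Real.sqrt (f x) : ℝ) : ℂ) := by
      funext x
      rw [Real.sqrt_mul (by norm_num), Complex.ofReal_mul]
    rw [e]
    refine ⟨hf.sobolev.memLp.const_mul s, fun i => (hf.sobolev.memLp_grad i).const_mul s,
      fun η h1 h2 i => ?_⟩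
    have h3 := hf.sobolev.weak η h1 h2 i
    simp only [mul_assoc]
    rw [integral_const_mul, integral_const_mul, h3]
    ring
  obtain ⟨φ, g, h1, h2⟩ := pair hd (ρ := fun x => 2 * f x)
    (fun x => mul_nonneg (by norm_num) (hf.nonneg x)) (hf.integrable.const_mul 2)
    (by rw [integral_const_mul, hf.integral, mul_one])
    (by simp only [hpow]; exact hfi.const_mul _) hsob
  refine ⟨φ, g, h1, ?_⟩
  simp only [hpow] at h2
  rw [integral_const_mul] at h2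
  have h3 : ∀ i, ∫ x, ‖s * G i x‖ ^ 2 = 2 * ∫ x, ‖G i x‖ ^ 2 := by
    intro i
    rw [← integral_const_mul]
    refine integral_congr_ae (Filter.Eventually.of_forall fun x => ?_)
    simp only
    rw [norm_mul, mul_pow, hs, Complex.norm_real, Real.norm_eq_abs, sq_abs,
      Real.sq_sqrt (by norm_num)]
  rw [Finset.sum_congr rfl fun i _ => h3 i, ← Finset.mul_sum] at h2
  have h20 : (0:ℝ) < (2:ℝ) ^ (-1 - 2 / (d:ℝ)) := by positivity
  have h4 := mul_le_mul_of_nonneg_left h2 h20.le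
  have e1 : (2:ℝ) ^ (-1 - 2 / (d:ℝ)) * (2:ℝ) ^ (1 + 2 / (d:ℝ)) = 1 := by
    rw [← Real.rpow_add (by norm_num)]
    have : (-1 - 2 / (d:ℝ)) + (1 + 2 / (d:ℝ)) = 0 := by ring
    rw [this, Real.rpow_zero]
  have e2 : (2:ℝ) ^ (-1 - 2 / (d:ℝ)) * 2 = (2:ℝ) ^ (-(2 / (d:ℝ))) := by
    have : -(2 / (d:ℝ)) = (-1 - 2 / (d:ℝ)) + 1 := by ring
    rw [this, Real.rpow_add (by norm_num), Real.rpow_one]
  calc (2:ℝ) ^ (-1 - 2 / (d:ℝ)) * kinetic g ≤ _ := h4
    _ = ((2:ℝ) ^ (-1 - 2 / (d:ℝ)) * (2:ℝ) ^ (1 + 2 / (d:ℝ))) *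
          (Kcl d * ∫ x, f x ^ (1 + 2 / (d:ℝ))) +
        ((2:ℝ) ^ (-1 - 2 / (d:ℝ)) * 2) * ∑ i, ∫ x, ‖G i x‖ ^ 2 := by ring
    _ = _ := by rw [e1, e2, one_mul]

end Pool.Agent.Results.MP_ae5e3b_mp.MarchYoungPairs
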